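import Pool.Agent.Helper63.E5.TWOD
import Pool.Agent.Helper71.E5.WCFA
import Pool.Agent.Helper26.E5.TOR
import Pool.Agent.Helper90.E5.MIR
import Pool.Agent.Helper1.E5.SPKR

/-!
MP_efd95c_co, wheels: row TWO (at most one rim edge of `p` is slack), assembly.
-/

set_option autoImplicit false

open Real

namespace E5

theorem two_tqpos {r s θ : ℝ} (hr : 0 < r) (hs : 0 < s) (h0 : 0 < θ) (h1 : θ < π)
    (h2 : ch r s θ < 2) : 0 < tq r s θ := by
  have T := TRI r s θ hr hs h0 h1 h2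
  obtain ⟨c0, c1, d0, d1, u0, u1, e1, e2, e3, e4, -⟩ := T
  rw [e4]
  have h3 : 0 < Real.sin (un r s θ) := Real.sin_pos_of_pos_of_lt_pi u0 u1
  have h4 : 0 < Real.cos (hd r s θ) := Real.cos_pos_of_mem_Ioo ⟨by linarith [Real.pi_pos], d1⟩
  positivity

/-- `xb` and `ab` are not both without stress -/
theorem two_t1 {ra rx ry rb Ra Rx Ry Rb b1 b2 b3 t1 t2 t3 t4
    w0a w0x w0y w0b way wyx χa χx χy χb : ℝ}
    (D : WD ra rx ry rb Ra Rx Ry Rb b1 b2 b3 t1 t2 t3 t4)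
    (W : WW ra rx ry rb Ra Rx Ry Rb b1 b2 b3 t1 t2 t3 t4
      w0a w0x w0y w0b way wyx 0 0 χa χx χy χb) : False := by
  obtain ⟨-, -, h, -⟩ := TOR _ _ _ _ _ _ _ _ _ _ _ _ _ _ _ _ _ _ _ _ _ _ _ _ _ _ _ D W
  have Q := D.q
  have h1 := two_tqpos Q.ry0 Q.rb0 Q.b30 (by linarith [Q.bs, Q.b10, Q.b20]) Q.cyb2
  rw [h] at h1
  linarith

/-- all spokes tight: `xb` is tight -/
theorem two_xb {ra rx ry rb b1 b2 b3 t1 t2 t3 t4
    w0a w0x w0y w0b way wyx wxb wab χa χx χy χb : ℝ}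
    (D : WD ra rx ry rb ra rx ry rb b1 b2 b3 t1 t2 t3 t4)
    (W : WW ra rx ry rb ra rx ry rb b1 b2 b3 t1 t2 t3 t4
      w0a w0x w0y w0b way wyx wxb wab χa χx χy χb) (hx : 0 < w0x) :
    ch rx rb (b2 + b3) = ch rx rb t3 := by
  have Q := D.q
  have P := D.p
  have b10 := Q.b10
  have b20 := Q.b20
  have b30 := Q.b30
  have bs := Q.bs
  by_contra hc
  have hw : wxb = 0 := by
    by_contra hne
    exact hc (W.cxb hne)
  subst hw
  have h4 : ch ra rb (b1 + b2 + b3) = ch ra rb t4 := by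
    by_contra hc4
    have hw4 : wab = 0 := by
      by_contra hne
      exact hc4 (W.cab hne)
    subst hw4
    exact two_t1 D W
  have e4 : b1 + b2 + b3 = t4 :=
    ch_inj71 Q.ra0 Q.rb0 (by linarith) (by linarith) P.t40.le P.t4p.le h4
  subst e4
  have h0 : χx = 0 := by
    by_cases h2 : ch ry rx b2 = ch ry rx t2
    · have e2 : b2 = t2 :=
        ch_inj71 Q.ry0 Q.rx0 (by linarith) (by linarith) P.t20.le P.t2p.le h2
      subst e2
      exact two_x1 D W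
    · have hw2 : wyx = 0 := by
        by_contra hne
        exact h2 (W.cyx hne)
      subst hw2
      exact two_kx D W hx
  exact two_b1 D W h0

/-- the six alternatives -/
def TwoAlt (ra rx ry rb Ra Rx Ry Rb b1 b2 b3 t1 t2 t3 t4 : ℝ) : Prop :=
  (ch ra ry (b1 + b2) = ch Ra Ry t1 ∨ ch ry rx b2 = ch Ry Rx t2) ∧
  (ch ra ry (b1 + b2) = ch Ra Ry t1 ∨ ch rx rb (b2 + b3) = ch Rx Rb t3) ∧
  (ch ra ry (b1 + b2) = ch Ra Ry t1 ∨ ch ra rb (b1 + b2 + b3) = ch Ra Rb t4) ∧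
  (ch ry rx b2 = ch Ry Rx t2 ∨ ch rx rb (b2 + b3) = ch Rx Rb t3) ∧
  (ch ry rx b2 = ch Ry Rx t2 ∨ ch ra rb (b1 + b2 + b3) = ch Ra Rb t4) ∧
  (ch rx rb (b2 + b3) = ch Rx Rb t3 ∨ ch ra rb (b1 + b2 + b3) = ch Ra Rb t4)

/-- all spokes tight -/
theorem two_tight {ra rx ry rb b1 b2 b3 t1 t2 t3 t4
    w0a w0x w0y w0b way wyx wxb wab χa χx χy χb : ℝ}
    (D : WD ra rx ry rb ra rx ry rb b1 b2 b3 t1 t2 t3 t4)
    (W : WW ra rx ry rb ra rx ry rb b1 b2 b3 t1 t2 t3 t4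
      w0a w0x w0y w0b way wyx wxb wab χa χx χy χb) (hx : 0 < w0x) (hy : 0 < w0y) :
    TwoAlt ra rx ry rb ra rx ry rb b1 b2 b3 t1 t2 t3 t4 := by
  have Q := D.q
  have P := D.p
  have b10 := Q.b10
  have b20 := Q.b20
  have b30 := Q.b30
  have bs := Q.bs
  have h3 : ch rx rb (b2 + b3) = ch rx rb t3 := two_xb D W hx
  have h1 : ch ra ry (b1 + b2) = ch ra ry t1 := by
    have D' := st_MIR _ _ _ _ _ _ _ _ _ _ _ _ _ _ _ D
    have W' := st_MIRW _ _ _ _ _ _ _ _ _ _ _ _ _ _ _ _ _ _ _ _ _ _ _ _ _ _ _ P.ts W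
    have h := two_xb D' W' hy
    rw [kxe_chs ra ry, kxe_chs ra ry t1, add_comm b1 b2]
    exact h
  have h24 : ch ry rx b2 = ch ry rx t2 ∨ ch ra rb (b1 + b2 + b3) = ch ra rb t4 := by
    by_contra hc
    push Not at hc
    have hw : wab = 0 := by
      by_contra hne
      exact hc.2 (W.cab hne)
    subst hw
    have e1 : b1 + b2 = t1 :=
      ch_inj71 Q.ra0 Q.ry0 (by linarith) (by linarith) P.t10.le P.t1p.le h1
    have e3 : b2 + b3 = t3 :=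
      ch_inj71 Q.rx0 Q.rb0 (by linarith) (by linarith) P.t30.le P.t3p.le h3
    subst e1
    subst e3
    exact two_b2 D W
  exact ⟨Or.inl h1, Or.inl h1, Or.inl h1, Or.inr h3, h24, Or.inl h3⟩

/-- the spoke of the end kink `a` is slack -/
theorem two_kink {ra rx ry rb Ra b1 b2 b3 t1 t2 t3 t4
    w0a w0x w0y w0b way wyx wxb wab χa χx χy χb : ℝ}
    (D : WD ra rx ry rb Ra rx ry rb b1 b2 b3 t1 t2 t3 t4)
    (W : WW ra rx ry rb Ra rx ry rb b1 b2 b3 t1 t2 t3 t4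
      w0a w0x w0y w0b way wyx wxb wab χa χx χy χb)
    (S : SPE Ra ry rb t1 t4 w0a w0x w0y w0b way wab χa χx χy χb) (hlt : ra < Ra) :
    TwoAlt ra rx ry rb Ra rx ry rb b1 b2 b3 t1 t2 t3 t4 := by
  have P := D.p
  have k1 : ch ra ry (b1 + b2) = ch Ra ry t1 := by
    apply W.cay
    rw [S.ay]
    exact (mul_pos (by linarith [S.c1])
      (omc_pos71 (ch_pos71 P.Ra0 P.Ry0 P.t10 P.t1p) P.pay)).ne'
  have k4 : ch ra rb (b1 + b2 + b3) = ch Ra rb t4 := by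
    apply W.cab
    rw [S.ab]
    exact (mul_pos (by linarith [S.c1])
      (omc_pos71 (ch_pos71 P.Ra0 P.Rb0 P.t40 P.t4p) P.pab)).ne'
  have h23 : ch ry rx b2 = ch ry rx t2 ∨ ch rx rb (b2 + b3) = ch rx rb t3 := by
    by_contra hc
    push Not at hc
    have hw2 : wyx = 0 := by
      by_contra hne
      exact hc.1 (W.cyx hne)
    have hw3 : wxb = 0 := by
      by_contra hne
      exact hc.2 (W.cxb hne)
    subst hw2
    subst hw3
    obtain rfl := two_kx D W S.wx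
    exact two_e D W S hlt k4
  exact ⟨Or.inl k1, Or.inl k1, Or.inl k1, h23, Or.inr k4, Or.inr k4⟩

/-- the spoke of the end kink `a` carries no stress -/
theorem two_spe {ra rx ry rb Ra Rx Ry Rb b1 b2 b3 t1 t2 t3 t4
    w0a w0x w0y w0b way wyx wxb wab χa χx χy χb : ℝ}
    (D : WD ra rx ry rb Ra Rx Ry Rb b1 b2 b3 t1 t2 t3 t4)
    (W : WW ra rx ry rb Ra Rx Ry Rb b1 b2 b3 t1 t2 t3 t4
      w0a w0x w0y w0b way wyx wxb wab χa χx χy χb)
    (S : SPE Ra Ry Rb t1 t4 w0a w0x w0y w0b way wab χa χx χy χb) :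
    TwoAlt ra rx ry rb Ra Rx Ry Rb b1 b2 b3 t1 t2 t3 t4 := by
  have hx : Rx = rx := W.c0x S.wx.ne'
  have hy : Ry = ry := W.c0y S.wy.ne'
  have hb : Rb = rb := W.c0b S.wb.ne'
  subst hx
  subst hy
  subst hb
  by_cases hc : Ra = ra
  · subst hc
    exact two_tight D W S.wx S.wy
  · exact two_kink D W S (lt_of_le_of_ne D.ca (Ne.symm hc))

/-- row TWO: at most one rim edge is slack -/
theorem TWO : ST_TWO := by
  intro ra rx ry rb Ra Rx Ry Rb b1 b2 b3 t1 t2 t3 t4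
    w0a w0x w0y w0b way wyx wxb wab χa χx χy χb D W
  rcases SPKR TRI _ _ _ _ _ _ _ _ _ _ _ _ _ _ _ _ _ _ _ _ _ _ _ _ _ _ _ D W with h | h | h
  · obtain ⟨h1, h2, h3, h4⟩ := h
    have ha : Ra = ra := W.c0a h1.ne'
    have hx : Rx = rx := W.c0x h2.ne'
    have hy : Ry = ry := W.c0y h3.ne'
    have hb : Rb = rb := W.c0b h4.ne'
    subst ha
    subst hx
    subst hy
    subst hb
    exact two_tight D W h2 h3
  · exact two_spe D W h
  · have D' := st_MIR _ _ _ _ _ _ _ _ _ _ _ _ _ _ _ D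
    have W' := st_MIRW _ _ _ _ _ _ _ _ _ _ _ _ _ _ _ _ _ _ _ _ _ _ _ _ _ _ _ D.p.ts W
    obtain ⟨h12, h13, h14, h23, h24, h34⟩ := two_spe D' W' h
    have s1 : ch ry ra (b2 + b1) = ch ra ry (b1 + b2) := by rw [kxe_chs, add_comm b2 b1]
    have s2 : ch rx ry b2 = ch ry rx b2 := kxe_chs _ _ _
    have s3 : ch rb rx (b3 + b2) = ch rx rb (b2 + b3) := by rw [kxe_chs, add_comm b3 b2]
    have s4 : ch rb ra (b3 + b2 + b1) = ch ra rb (b1 + b2 + b3) := by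
      rw [kxe_chs]
      congr 1
      ring
    rw [s3, s2, kxe_chs Rb Rx, kxe_chs Rx Ry] at h12
    rw [s3, s1, kxe_chs Rb Rx, kxe_chs Ry Ra] at h13
    rw [s3, s4, kxe_chs Rb Rx, kxe_chs Rb Ra] at h14
    rw [s2, s1, kxe_chs Rx Ry, kxe_chs Ry Ra] at h23
    rw [s2, s4, kxe_chs Rx Ry, kxe_chs Rb Ra] at h24
    rw [s1, s4, kxe_chs Ry Ra, kxe_chs Rb Ra] at h34
    exact ⟨h23.symm, h13.symm, h34, h12.symm, h24, h14⟩

end E5
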