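import Pool.Agent.Helper49.E5.KXB

/-!
MP_efd95c_co, wheels: row TWO, first part (end vertex `b`).
-/

set_option autoImplicit false

open Real

namespace E5

theorem two_tanpos {r s θ : ℝ} (h1 : 0 < hd r s θ) (h2 : hd r s θ < π / 2) : 0 < TT r s θ := by
  unfold TT
  exact Real.tan_pos_of_pos_of_lt_pi_div_two h1 h2

theorem two_e2pi {s t : ℝ} (h : s = t + 2 * π) : AX.e s = AX.e t := by
  rw [h, frc_add]
  have : AX.e (2 * π) = 1 := by
    unfold AX.e
    have : ((2 * π : ℝ) : ℂ) * Complex.I = 2 * (π : ℂ) * Complex.I := by push_cast; ring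
    rw [this, Complex.exp_two_pi_mul_I]
  rw [this, mul_one]

/-- the end vertex argument -/
theorem two_end {db d u al xi eta Tj Ty uj dj uy dy : ℝ} (hdb0 : 0 < db) (hdbal : db < al)
    (hal : al = u + d) (hu : 0 < u) (hd0 : 0 < d) (hd : d < π / 2)
    (hxi : xi = uj + dj) (heta : eta = uy + dy) (huj : 0 < uj) (hdj0 : 0 < dj)
    (hdj : dj < π / 2) (huy0 : 0 < uy) (huy : uy < π) (hdy0 : 0 < dy) (hdy : dy < π / 2)
    (hTj : Real.tan dj ≤ Tj)
    (hTy : Ty = Real.tan dy) (hxe : xi < eta) (hxa : xi + al ≤ π) (h1 : db < π - eta)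
    (hro : uj - dj ≤ uy - dy)
    (hre : 1 / Real.cos db + (Real.cos eta + Ty * Real.sin eta)
      = (Real.cos xi + Tj * Real.sin xi) + (Real.cos al + Real.tan d * Real.sin al))
    (him : Real.sin eta - Ty * Real.cos eta
      = (Real.sin xi - Tj * Real.cos xi) - (Real.sin al - Real.tan d * Real.cos al)) :
    False := by
  have hpi := Real.pi_pos
  have hcy : 0 < Real.cos dy := Real.cos_pos_of_mem_Ioo ⟨by linarith, hdy⟩
  have hcj : 0 < Real.cos dj := Real.cos_pos_of_mem_Ioo ⟨by linarith, hdj⟩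
  have hc : 0 < Real.cos d := Real.cos_pos_of_mem_Ioo ⟨by linarith, hd⟩
  have ey : Real.sin eta - Ty * Real.cos eta = Real.sin uy / Real.cos dy := by
    rw [hTy, heta, Real.sin_add, Real.cos_add, Real.tan_eq_sin_div_cos]
    have := Real.sin_sq_add_cos_sq dy
    field_simp
    linear_combination (Real.sin uy) * this
  have ej : Real.sin xi - Real.tan dj * Real.cos xi = Real.sin uj / Real.cos dj := by
    rw [hxi, Real.sin_add, Real.cos_add, Real.tan_eq_sin_div_cos]
    have := Real.sin_sq_add_cos_sq dj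
    field_simp
    linear_combination (Real.sin uj) * this
  have ed : Real.sin al - Real.tan d * Real.cos al = Real.sin u / Real.cos d := by
    rw [hal, Real.sin_add, Real.cos_add, Real.tan_eq_sin_div_cos]
    have := Real.sin_sq_add_cos_sq d
    field_simp
    linear_combination (Real.sin u) * this
  have hy0 : 0 < Real.sin uy / Real.cos dy :=
    div_pos (Real.sin_pos_of_pos_of_lt_pi huy0 huy) hcy
  have hTd : 0 < Real.tan d := Real.tan_pos_of_pos_of_lt_pi_div_two hd0 hd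
  have hTj0 : 0 < Real.tan dj := Real.tan_pos_of_pos_of_lt_pi_div_two hdj0 hdj
  have hxi0 : 0 < xi := by linarith
  have hal2 : al ≤ π / 2 :=
    k_al (al := al) (xi := xi) (Tx := Real.tan d) (Tj := Tj) hxi0 (by linarith) hxa hTd
      (by linarith) (by linarith)
  have heta2 : π - eta < π / 2 := by
    by_contra hcon
    push Not at hcon
    have r2 := k_q (u1 := uj) (d1 := dj) (u2 := uy) (d2 := dy) (by linarith) (by linarith)
      hro hdj0.le hdy0.le hdj hdy huj
    rw [← ej, ← ey] at r2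
    have r3 : 0 < Real.sin al - Real.tan d * Real.cos al := by
      rw [ed]
      exact div_pos (Real.sin_pos_of_pos_of_lt_pi hu (by linarith)) hc
    have r4 : 0 ≤ Real.cos xi := Real.cos_nonneg_of_mem_Icc ⟨by linarith, by linarith⟩
    have r5 := mul_le_mul_of_nonneg_right hTj r4
    linarith
  exact H49E5.ev (db := db) (d := d) (al := al) (xi := xi) (eta := eta) (Tj := Tj) (Ty := Ty)
    hdb0.le hd0.le (by linarith) hal2 hd hdbal.le (by linarith) hxi0.le hxe hxa h1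
    heta2 hre him

/-- the arc over a kink is shorter than a half circle -/
theorem two_hdc {k u v m α β γ δ : ℝ} (hk0 : 0 < k) (hu0 : 0 < u) (hv0 : 0 < v) (hm0 : 0 < m)
    (hα : 0 < α) (hα1 : α < π) (hβ : 0 < β) (hβ1 : β < π) (hγ : 0 < γ) (hγ1 : γ < π)
    (hδ : 0 < δ) (hδ1 : δ < π) (c1 : ch k u α < 2) (c2 : ch k v β < 2) (c3 : ch m u γ < 2)
    (c4 : ch m v δ < 2) (hk : UU k u α + UU k v β = π) (hm : UU m u γ + UU m v δ ≤ π)
    (hsum : hd k u α + hd k v β + hd m u γ + hd m v δ < π)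
    (hs : α + β + γ + δ = 2 * π) : hd k v β + hd k u α < π / 2 := by
  have T3 := TRI m u γ hm0 hu0 hγ hγ1 c3
  have T4 := TRI m v δ hm0 hv0 hδ hδ1 c4
  have heT : AX.e (γ + δ) = AX.e (-(α + β)) := two_e2pi (by linarith)
  have hy := k_kink0 hk0 hu0 hv0 hα hα1 hβ hβ1 c2 c1 hk heT
  have h5 : u ^ 2 + v ^ 2 - 2 * u * v * Real.cos (γ + δ)
      = (2 * Real.sin (hd k v β + hd k u α)) ^ 2 := by
    have h1 := ch_sq v u (-(γ + δ))
    rw [← un_norm, neg_neg, hy, norm_mul, k_norm_e, mul_one, Complex.norm_real, Real.norm_eq_abs,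
      sq_abs, Real.cos_neg] at h1
    rw [h1]; ring
  unfold UU at hm
  exact k_dc (by rw [T3.2.2.2.2.2.2.1, T3.2.1]) (by rw [T3.2.2.2.2.2.2.2.1, T3.2.1])
    (by rw [T4.2.2.2.2.2.2.1, T4.2.1]) (by rw [T4.2.2.2.2.2.2.2.1, T4.2.1]) h5
    T3.2.2.1 T4.2.2.1 T3.2.2.2.2.1 T4.2.2.2.2.1 (by linarith) (by linarith)

/-- `xb` slack, `ab` and all spokes tight, no tour avoids `x` -/
theorem two_b1 {ra rx ry rb b1 b2 b3 t1 t2 t3 w0a w0x w0y w0b way wyx wab χa χx χy χb : ℝ}
    (D : WD ra rx ry rb ra rx ry rb b1 b2 b3 t1 t2 t3 (b1 + b2 + b3))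
    (W : WW ra rx ry rb ra rx ry rb b1 b2 b3 t1 t2 t3 (b1 + b2 + b3)
      w0a w0x w0y w0b way wyx 0 wab χa χx χy χb) (hχx : χx = 0) : False := by
  have Q := D.q
  have P := D.p
  have hpi := Real.pi_pos
  have ra0 := Q.ra0
  have rx0 := Q.rx0
  have ry0 := Q.ry0
  have rb0 := Q.rb0
  have b10 := Q.b10
  have b20 := Q.b20
  have b30 := Q.b30
  have bs := Q.bs
  have t10 := P.t10
  have t1p := P.t1p
  have t20 := P.t20
  have t2p := P.t2p
  have t30 := P.t30
  have t3p := P.t3p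
  have ts := P.ts
  -- triangles
  have cba : ch rb ra (b1 + b2 + b3) < 2 := by rw [k_sym]; exact Q.cab2
  have cby : ch rb ry b3 < 2 := by rw [k_sym]; exact Q.cyb2
  have cbx : ch rb rx t3 < 2 := by rw [k_sym]; exact P.pxb
  have Tba := TRI rb ra (b1 + b2 + b3) rb0 ra0 (by linarith) bs cba
  have Tby := TRI rb ry b3 rb0 ry0 b30 (by linarith) cby
  have Tbx := TRI rb rx t3 rb0 rx0 t30 t3p cbx
  have Tay := TRI ra ry (b1 + b2) ra0 ry0 (by linarith) (by linarith) Q.cay2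
  have Tay' := TRI ra ry t1 ra0 ry0 t10 t1p P.pay
  have zba := k_z rb0 ra0 (by linarith) bs cba
  have zby := k_z rb0 ry0 b30 (by linarith) cby
  have zbx := k_zc rb0 rx0 t30 t3p cbx
  have dbp : 0 < h0 rb := by unfold h0; exact Real.arcsin_pos.mpr (by linarith)
  have dbl : h0 rb < π / 2 := by
    unfold h0; exact Real.arcsin_lt_pi_div_two.mpr (by linarith [Q.rb2])
  have xe : UU rb ra (b1 + b2 + b3) < UU rb ry b3 := Q.z2.trans Q.z3
  have ep : UU rb ry b3 < π - h0 rb := by linarith [Q.qb]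
  have xi0 : 0 < UU rb ra (b1 + b2 + b3) := by unfold UU; linarith [Tba.2.2.1, Tba.2.2.2.2.1]
  have Tyn := (two_tanpos Tby.2.2.1 Tby.2.2.2.1).le
  have Tan := (two_tanpos Tba.2.2.1 Tba.2.2.2.1).le
  -- the equation at b
  have hQ := congrArg (starRingEnd ℂ) W.QB
  simp only [map_add, map_mul, map_sub, Complex.conj_ofReal, frc_conj] at hQ
  have hP := W.PB
  have E : ((1 / Real.cos (h0 rb) : ℝ) : ℂ)
      + AX.e (UU rb ry b3) * (1 - (TT rb ry b3 : ℂ) * Complex.I)
      = (((1 - χb) * (1 - χx) : ℝ) : ℂ)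
          * (AX.e (-UU rb rx t3) * (1 - ((-TT rb rx t3 : ℝ) : ℂ) * Complex.I))
        + (((1 - χb) * (1 - χa) : ℝ) : ℂ)
          * (AX.e (UU rb ra (b1 + b2 + b3))
            * (1 - (TT rb ra (b1 + b2 + b3) : ℂ) * Complex.I))
        + ((χx + χa : ℝ) : ℂ) * ((omc rb ry (t2 + t3) : ℂ)
          * ((rb : ℂ) - (ry : ℂ) * AX.e (t2 + t3))) := by
    push_cast at hQ hP zba zby zbx ⊢
    linear_combination hP - hQ - zby + (1 - (χb : ℂ)) * (1 - (χx : ℂ)) * zbx
      + (1 - (χb : ℂ)) * (1 - (χa : ℂ)) * zba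
  -- b is no kink
  have hkb : UU rb rx t3 + UU rb ra (b1 + b2 + b3) < π := by
    rcases P.eb.lt_or_eq with h | h
    · exact h
    exfalso
    have ha : χa = 0 := by
      by_contra hc
      have h1 := W.χas hc
      rcases P.nab with h2 | h2 <;> linarith
    rw [hχx, ha] at E
    have e1 := congrArg Complex.re E
    have e2 := congrArg Complex.im E
    simp only [Complex.add_re, Complex.add_im, Complex.ofReal_re, Complex.ofReal_im,
      Complex.re_ofReal_mul, Complex.im_ofReal_mul, k_z_re, k_z_im] at e1 e2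
    have al : UU rb rx t3 = π - UU rb ra (b1 + b2 + b3) := by linarith
    rw [al, Real.cos_neg, Real.sin_neg, Real.cos_pi_sub, Real.sin_pi_sub] at e1 e2
    have key := k_kb dbp dbl xi0 xe ep Tyn
    rw [Real.cos_sub, Real.sin_sub] at key
    have : Real.cos (UU rb ra (b1 + b2 + b3)) / Real.cos (h0 rb)
        = (1 / Real.cos (h0 rb)) * Real.cos (UU rb ra (b1 + b2 + b3)) := by ring
    rw [this] at key
    have hz : 1 / Real.cos (h0 rb) * Real.cos (UU rb ra (b1 + b2 + b3)) +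
        (Real.cos (UU rb ry b3) * Real.cos (UU rb ra (b1 + b2 + b3)) +
            Real.sin (UU rb ry b3) * Real.sin (UU rb ra (b1 + b2 + b3)) +
          TT rb ry b3 * (Real.sin (UU rb ry b3) * Real.cos (UU rb ra (b1 + b2 + b3)) -
              Real.cos (UU rb ry b3) * Real.sin (UU rb ra (b1 + b2 + b3)))) = 0 := by
      linear_combination (Real.cos (UU rb ra (b1 + b2 + b3))) * e1
        + (Real.sin (UU rb ra (b1 + b2 + b3))) * e2
    linarith
  have hχb : χb = 0 := by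
    by_contra hc
    have h1 := W.χbs hc
    linarith
  -- effective force towards a
  have hTj : ∃ Tj : ℝ, TT rb ra (b1 + b2 + b3) ≤ Tj ∧
      ((1 - χa : ℝ) : ℂ) * (AX.e (UU rb ra (b1 + b2 + b3))
            * (1 - (TT rb ra (b1 + b2 + b3) : ℂ) * Complex.I))
        + ((χa : ℝ) : ℂ) * ((omc rb ry (t2 + t3) : ℂ)
          * ((rb : ℂ) - (ry : ℂ) * AX.e (t2 + t3)))
        = AX.e (UU rb ra (b1 + b2 + b3)) * (1 - (Tj : ℂ) * Complex.I) := by
    by_cases hc : χa = 0
    · refine ⟨TT rb ra (b1 + b2 + b3), le_refl _, ?_⟩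
      rw [hc]
      push_cast
      ring
    · have hk := W.χas hc
      have heT : AX.e (t2 + t3) = AX.e (-(t1 + (b1 + b2 + b3))) := two_e2pi (by linarith)
      have hsum := k_qsum Q
      have hpos := D.pos
      rw [k_hsym ry rx t2] at hpos
      have hdc := two_hdc ra0 ry0 rb0 rx0 t10 t1p (by linarith) bs t20 t2p t30 t3p P.pay Q.cab2
        (by rw [k_sym]; exact P.pyx) P.pxb hk P.ex (by linarith) (by linarith)
      have hkk := k_kink ra0 ry0 rb0 t10 t1p (by linarith) bs Q.cab2 P.pay hk heT hdc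
      refine ⟨(1 - χa) * TT rb ra (b1 + b2 + b3)
        + χa * Real.tan (hd ra rb (b1 + b2 + b3) + hd ra ry t1), ?_, ?_⟩
      · have h1 : TT rb ra (b1 + b2 + b3)
            ≤ Real.tan (hd ra rb (b1 + b2 + b3) + hd ra ry t1) := by
          unfold TT
          rw [k_hsym rb ra]
          apply le_of_lt
          exact Real.tan_lt_tan_of_lt_of_lt_pi_div_two
            (by have := Tba.2.2.1; rw [k_hsym] at this; linarith) hdc (by linarith [Tay'.2.2.1])
        exact k_avg h1 W.χa0.1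
      · rw [hkk]
        push_cast
        ring
  obtain ⟨Tj, hTj1, hTj2⟩ := hTj
  have E' : ((1 / Real.cos (h0 rb) : ℝ) : ℂ)
      + AX.e (UU rb ry b3) * (1 - (TT rb ry b3 : ℂ) * Complex.I)
      = AX.e (-UU rb rx t3) * (1 - ((-TT rb rx t3 : ℝ) : ℂ) * Complex.I)
        + AX.e (UU rb ra (b1 + b2 + b3)) * (1 - (Tj : ℂ) * Complex.I) := by
    rw [hχb, hχx] at E
    push_cast at E hTj2 ⊢
    linear_combination E + hTj2
  have e1 := congrArg Complex.re E'
  have e2 := congrArg Complex.im E'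
  simp only [Complex.add_re, Complex.add_im, Complex.ofReal_re, Complex.ofReal_im,
    k_z_re, k_z_im, Real.cos_neg, Real.sin_neg] at e1 e2
  have r1 : un rb ra (b1 + b2 + b3) - hd rb ra (b1 + b2 + b3)
      ≤ un rb ry b3 - hd rb ry b3 := by
    have hrc := Q.qayb.2.1
    rw [k_hsym ry rb, k_hsym ra rb] at hrc
    refine k_ro (rb := rb) (ra := ra) (ry := ry) (Φ := b1 + b2 + b3) (b3 := b3)
      (d3 := hd ra ry (b1 + b2)) ?_ ?_ ?_ ?_ ?_ (Q.uz1.trans Q.uz2) Tba.2.2.1 Tby.2.2.2.1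
      Tay.2.2.2.1 hrc
    · rw [Tba.2.2.2.2.2.2.1, Tba.2.1]
    · rw [Tba.2.2.2.2.2.2.2.1, Tba.2.1]
    · rw [Tby.2.2.2.2.2.2.1, Tby.2.1]
    · rw [Tby.2.2.2.2.2.2.2.1, Tby.2.1]
    · rw [← Tay.2.1, ch_sq]
      congr 2
      congr 1
      ring
  have tx : TT rb rx t3 = Real.tan (hd rb rx t3) := rfl
  exact two_end (db := h0 rb) (d := hd rb rx t3) (u := un rb rx t3) (al := UU rb rx t3)
    (xi := UU rb ra (b1 + b2 + b3)) (eta := UU rb ry b3) (Tj := Tj) (Ty := TT rb ry b3)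
    (uj := un rb ra (b1 + b2 + b3)) (dj := hd rb ra (b1 + b2 + b3)) (uy := un rb ry b3)
    (dy := hd rb ry b3) dbp P.hbx rfl Tbx.2.2.2.2.1 Tbx.2.2.1 Tbx.2.2.2.1 rfl rfl
    Tba.2.2.2.2.1 Tba.2.2.1 Tba.2.2.2.1 Tby.2.2.2.2.1 Tby.2.2.2.2.2.1 Tby.2.2.1 Tby.2.2.2.1
    hTj1 rfl xe (by linarith) (by linarith) r1 (by rw [← tx]; linarith)
    (by rw [← tx]; linarith)

end E5
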