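import Pool.Agent.Helper63.E5.TWOA

/-!
MP_efd95c_co, wheels: row TWO, second part (middle kink `x`).
-/

set_option autoImplicit false

open Real

namespace E5

/-- `yx` tight, `xb` slack: no tour avoids `x` -/
theorem two_x1 {ra rx ry rb Ra b1 b2 b3 t1 t3 t4 w0a w0x w0y w0b way wyx wab χa χx χy χb : ℝ}
    (D : WD ra rx ry rb Ra rx ry rb b1 b2 b3 t1 b2 t3 t4)
    (W : WW ra rx ry rb Ra rx ry rb b1 b2 b3 t1 b2 t3 t4
      w0a w0x w0y w0b way wyx 0 wab χa χx χy χb) : χx = 0 := by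
  have Q := D.q
  have P := D.p
  have hpi := Real.pi_pos
  have ra0 := Q.ra0
  have rx0 := Q.rx0
  have ry0 := Q.ry0
  have rb0 := Q.rb0
  have b10 := Q.b10
  have b20 := Q.b20
  have b30 := Q.b30
  have bs := Q.bs
  have t30 := P.t30
  have t3p := P.t3p
  have cxa : ch rx ra b1 < 2 := by rw [k_sym]; exact Q.cax2
  have Txb := TRI rx rb t3 rx0 rb0 t30 t3p P.pxb
  have Txy := TRI rx ry b2 rx0 ry0 b20 (by linarith) Q.cxy2
  have Txa := TRI rx ra b1 rx0 ra0 b10 (by linarith) cxa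
  have zxb := k_z rx0 rb0 t30 t3p P.pxb
  have zxy := k_zc rx0 ry0 b20 (by linarith) Q.cxy2
  have zxa := k_z rx0 ra0 b10 (by linarith) cxa
  by_contra hcx
  have h := W.χxs hcx
  have hy : χy = 0 := by
    by_contra hc
    have h1 := W.χys hc
    rcases P.nyx with h2 | h2 <;> linarith
  have hb : χb = 0 := by
    by_contra hc
    have h1 := W.χbs hc
    rcases P.nxb with h2 | h2 <;> linarith
  have hQX := W.QX
  have hPX := W.PX
  have EX : AX.e (UU rx ra b1) * (1 - (TT rx ra b1 : ℂ) * Complex.I)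
      + AX.e (-UU rx ry b2) * (1 - ((-TT rx ry b2 : ℝ) : ℂ) * Complex.I)
      = ((1 - χx : ℝ) : ℂ) *
        (AX.e (-UU rx ry b2) * (1 - ((-TT rx ry b2 : ℝ) : ℂ) * Complex.I))
        + ((1 - χx : ℝ) : ℂ) * (AX.e (UU rx rb t3) * (1 - (TT rx rb t3 : ℂ) * Complex.I)) := by
    rw [hy, hb] at hPX
    push_cast at hQX hPX zxb zxy zxa ⊢
    linear_combination hPX - hQX - zxa - zxy + (1 - (χx : ℂ)) * zxy + (1 - (χx : ℂ)) * zxb
  have e1 := congrArg Complex.re EX
  have e2 := congrArg Complex.im EX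
  simp only [Complex.add_re, Complex.add_im, Complex.re_ofReal_mul, Complex.im_ofReal_mul,
    k_z_re, k_z_im] at e1 e2
  have al : UU rx ry b2 = π - UU rx rb t3 := by linarith
  rw [al, Real.cos_neg, Real.sin_neg, Real.cos_pi_sub, Real.sin_pi_sub] at e1 e2
  have hlt : UU rx ra b1 < UU rx rb t3 := by linarith [Q.qx]
  have hW0 : 0 < UU rx ra b1 := by unfold UU; linarith [Txa.2.2.1, Txa.2.2.2.2.1]
  have hVp : UU rx rb t3 < π := by
    have : 0 < UU rx ry b2 := by unfold UU; linarith [Txy.2.2.1, Txy.2.2.2.2.1]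
    linarith
  have hTxa := (two_tanpos Txa.2.2.1 Txa.2.2.2.1).le
  have c1 : Real.cos (UU rx rb t3 - UU rx ra b1) < 1 := by
    have := Real.cos_lt_cos_of_nonneg_of_le_pi (le_refl 0)
      (by linarith : UU rx rb t3 - UU rx ra b1 ≤ π) (by linarith)
    simpa using this
  have c2 : 0 ≤ TT rx ra b1 * Real.sin (UU rx rb t3 - UU rx ra b1) :=
    mul_nonneg hTxa (Real.sin_nonneg_of_nonneg_of_le_pi (by linarith) (by linarith))
  have hsq := Real.sin_sq_add_cos_sq (UU rx rb t3)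
  have hz : Real.cos (UU rx rb t3 - UU rx ra b1)
      - TT rx ra b1 * Real.sin (UU rx rb t3 - UU rx ra b1) = 1 := by
    rw [Real.cos_sub, Real.sin_sub]
    linear_combination (Real.cos (UU rx rb t3)) * e1 + (Real.sin (UU rx rb t3)) * e2 + hsq
  linarith

/-- `U = pi/2` in terms of chords -/
theorem two_right {r s θ : ℝ} (hr : 0 < r) (hs : 0 < s) (h0 : 0 < θ) (h1 : θ < π)
    (h2 : ch r s θ < 2) :
    (UU r s θ ≤ π / 2 → ch r s θ ^ 2 ≤ 2 * (r - s * Real.cos θ)) ∧
    (π / 2 ≤ UU r s θ → 2 * (r - s * Real.cos θ) ≤ ch r s θ ^ 2) ∧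
    (2 * (r - s * Real.cos θ) ≤ ch r s θ ^ 2 → π / 2 ≤ UU r s θ) := by
  have T := TRI r s θ hr hs h0 h1 h2
  obtain ⟨c0, c1, d0, d1, u0, u1, e1, -⟩ := T
  have hpi := Real.pi_pos
  rw [e1]
  set c := ch r s θ
  set d := hd r s θ
  set u := un r s θ
  have hsd : Real.sin d = c / 2 := by linarith
  have hcd : Real.cos (π / 2 - d) = c / 2 := by rw [Real.cos_pi_div_two_sub, hsd]
  have hU : UU r s θ = u + d := rfl
  rw [hU]
  refine ⟨fun h => ?_, fun h => ?_, fun h => ?_⟩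
  · have h3 : Real.cos (π / 2 - d) ≤ Real.cos u :=
      Real.cos_le_cos_of_nonneg_of_le_pi u0.le (by linarith) (by linarith)
    rw [hcd] at h3
    have := mul_le_mul_of_nonneg_left h3 c0.le
    nlinarith
  · have h3 : Real.cos u ≤ Real.cos (π / 2 - d) :=
      Real.cos_le_cos_of_nonneg_of_le_pi (by linarith) u1.le (by linarith)
    rw [hcd] at h3
    have := mul_le_mul_of_nonneg_left h3 c0.le
    nlinarith
  · by_contra hcon
    push Not at hcon
    have h3 : Real.cos (π / 2 - d) < Real.cos u :=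
      Real.cos_lt_cos_of_nonneg_of_le_pi u0.le (by linarith) (by linarith)
    rw [hcd] at h3
    have := mul_lt_mul_of_pos_left h3 c0
    nlinarith

theorem two_far {rx rb c0 c1 B2 t2 : ℝ} (hrb : 0 < rb)
    (e0 : B2 = rx ^ 2 + rb ^ 2 - 2 * rx * rb * c0) (e1 : t2 = rx ^ 2 + rb ^ 2 - 2 * rx * rb * c1)
    (hc : c1 ≤ c0) (h1 : c1 < 1) (h1' : -1 < c1) (hx : t2 = 2 * (rx - rb * c1))
    (hb : t2 ≤ 2 * (rb - rx * c1)) : 2 * (rx - rb * c0) ≤ B2 := by
  have h2 : rx ≤ rb := by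
    have : 0 ≤ (rb - rx) * (1 + c1) := by linarith
    by_contra hcon
    push Not at hcon
    nlinarith
  have h3 : rx ≤ 1 := by
    by_contra hcon
    push Not at hcon
    have h4 : (rx - 1) ^ 2 + rb ^ 2 - 1 = 2 * rb * (rx - 1) * c1 := by linarith
    have h5 : 0 < 2 * rb * (rx - 1) := by
      have : 0 < rx - 1 := by linarith
      positivity
    have h6 := mul_lt_mul_of_pos_left h1 h5
    have h7 : (rb - (rx - 1)) ^ 2 < 1 := by nlinarith
    nlinarith
  have h8 : 0 ≤ rb * (1 - rx) * (c0 - c1) :=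
    mul_nonneg (mul_nonneg hrb.le (by linarith)) (by linarith)
  rw [e0]
  nlinarith

/-- `yx` and `xb` slack: no tour avoids `x` -/
theorem two_kx {ra rx ry rb Ra b1 b2 b3 t1 t2 t3 t4 w0a w0x w0y w0b way wab χa χx χy χb : ℝ}
    (D : WD ra rx ry rb Ra rx ry rb b1 b2 b3 t1 t2 t3 t4)
    (W : WW ra rx ry rb Ra rx ry rb b1 b2 b3 t1 t2 t3 t4
      w0a w0x w0y w0b way 0 0 wab χa χx χy χb) (hw : 0 < w0x) : χx = 0 := by
  have Q := D.q
  have P := D.p
  have hpi := Real.pi_pos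
  have ra0 := Q.ra0
  have rx0 := Q.rx0
  have ry0 := Q.ry0
  have rb0 := Q.rb0
  have Ra0 := P.Ra0
  have b10 := Q.b10
  have b20 := Q.b20
  have b30 := Q.b30
  have bs := Q.bs
  have t10 := P.t10
  have t1p := P.t1p
  have t20 := P.t20
  have t2p := P.t2p
  have t30 := P.t30
  have t3p := P.t3p
  have t40 := P.t40
  have t4p := P.t4p
  have ts := P.ts
  by_contra hcx
  have hk := W.χxs hcx
  have hy : χy = 0 := by
    by_contra hc
    have h1 := W.χys hc
    rcases P.nyx with h2 | h2 <;> linarith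
  have hb : χb = 0 := by
    by_contra hc
    have h1 := W.χbs hc
    rcases P.nxb with h2 | h2 <;> linarith
  have cxa : ch rx ra b1 < 2 := by rw [k_sym]; exact Q.cax2
  have cxy : ch rx ry t2 < 2 := by rw [k_sym]; exact P.pyx
  have cbx : ch rb rx t3 < 2 := by rw [k_sym]; exact P.pxb
  have cba : ch rb Ra t4 < 2 := by rw [k_sym]; exact P.pab
  have Txb := TRI rx rb t3 rx0 rb0 t30 t3p P.pxb
  have Txy := TRI rx ry t2 rx0 ry0 t20 t2p cxy
  have Tqxy := TRI rx ry b2 rx0 ry0 b20 (by linarith) Q.cxy2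
  have Txa := TRI rx ra b1 rx0 ra0 b10 (by linarith) cxa
  have Tbx := TRI rb rx t3 rb0 rx0 t30 t3p cbx
  have Tba := TRI rb Ra t4 rb0 Ra0 t40 t4p cba
  have zxb := k_z rx0 rb0 t30 t3p P.pxb
  have zxy := k_zc rx0 ry0 t20 t2p cxy
  have zqxy := k_zc rx0 ry0 b20 (by linarith) Q.cxy2
  have zxa := k_z rx0 ra0 b10 (by linarith) cxa
  have zbx := k_zc rb0 rx0 t30 t3p cbx
  have zba := k_z rb0 Ra0 t40 t4p cba
  -- `U = pi / 2` at `x` in `p`
  have hPX := W.PX
  have EP : (w0x : ℂ) * rx = ((1 - χx : ℝ) : ℂ) *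
        (AX.e (-UU rx ry t2) * (1 - ((-TT rx ry t2 : ℝ) : ℂ) * Complex.I))
        + ((1 - χx : ℝ) : ℂ) * (AX.e (UU rx rb t3) * (1 - (TT rx rb t3 : ℂ) * Complex.I)) := by
    rw [hy, hb] at hPX
    push_cast at hPX zxb zxy ⊢
    linear_combination hPX + (1 - (χx : ℂ)) * zxy + (1 - (χx : ℂ)) * zxb
  have e1 := congrArg Complex.re EP
  have e2 := congrArg Complex.im EP
  simp only [Complex.add_re, Complex.add_im, Complex.re_ofReal_mul, Complex.im_ofReal_mul,
    k_z_re, k_z_im, Complex.ofReal_re, Complex.ofReal_im, mul_zero] at e1 e2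
  have al : UU rx ry t2 = π - UU rx rb t3 := by linarith
  rw [al, Real.cos_neg, Real.sin_neg, Real.cos_pi_sub, Real.sin_pi_sub] at e1 e2
  have T1 := two_tanpos Txy.2.2.1 Txy.2.2.2.1
  have T2 := two_tanpos Txb.2.2.1 Txb.2.2.2.1
  have hne : 1 - χx ≠ 0 := by
    intro h0
    rw [h0] at e1
    have : 0 < w0x * rx := mul_pos hw rx0
    linarith
  have hcos : Real.cos (UU rx rb t3) = 0 := by
    have h3 : (1 - χx) * ((TT rx ry t2 + TT rx rb t3) * Real.cos (UU rx rb t3)) = 0 := by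
      linear_combination e2
    rcases mul_eq_zero.mp h3 with h4 | h4
    · exact absurd h4 hne
    · rcases mul_eq_zero.mp h4 with h5 | h5
      · linarith
      · exact h5
  have hV0 : 0 < UU rx rb t3 := by unfold UU; linarith [Txb.2.2.1, Txb.2.2.2.2.1]
  have hV1 : UU rx rb t3 < π := by
    have : 0 < UU rx ry t2 := by unfold UU; linarith [Txy.2.2.1, Txy.2.2.2.2.1]
    linarith
  have hV : UU rx rb t3 = π / 2 := by
    apply Real.injOn_cos ⟨hV0.le, hV1.le⟩ ⟨by linarith, by linarith⟩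
    rw [hcos, Real.cos_pi_div_two]
  -- `U_x^y <= pi / 2` in `q`
  have hQX := W.QX
  have EQ : (w0x : ℂ) * rx = AX.e (UU rx ra b1) * (1 - (TT rx ra b1 : ℂ) * Complex.I)
      + AX.e (-UU rx ry b2) * (1 - ((-TT rx ry b2 : ℝ) : ℂ) * Complex.I) := by
    push_cast at hQX zxa zqxy ⊢
    linear_combination hQX + zxa + zqxy
  have f2 := congrArg Complex.im EQ
  simp only [Complex.add_im, Complex.im_ofReal_mul, k_z_im, Complex.ofReal_im, mul_zero,
    Real.cos_neg, Real.sin_neg] at f2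
  have hA0 : 0 < UU rx ra b1 := by unfold UU; linarith [Txa.2.2.1, Txa.2.2.2.2.1]
  have hqx := Q.qx
  have hB : UU rx ry b2 ≤ π / 2 :=
    k_al (al := UU rx ry b2) (xi := UU rx ra b1) (Tx := TT rx ry b2) (Tj := TT rx ra b1)
      hA0 (by linarith) hqx.le (two_tanpos Tqxy.2.2.1 Tqxy.2.2.2.1)
      (two_tanpos Txa.2.2.1 Txa.2.2.2.1).le (by linarith)
  have hB2 : UU rx rb (b2 + b3) < π / 2 := by linarith [Q.x3]
  -- `U_b^x <= pi / 2` in `p`
  have hsum := k_qsum Q
  have hpos := D.pos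
  rw [k_hsym ry rx t2] at hpos
  have hdc := two_hdc rx0 ry0 rb0 Ra0 t20 t2p t30 t3p t10 t1p t40 t4p cxy P.pxb P.pay P.pab
    hk P.ea (by linarith) (by linarith)
  have hkk := k_kink rx0 ry0 rb0 t20 t2p t30 t3p P.pxb cxy hk
    (rfl : AX.e (-(t2 + t3)) = AX.e (-(t2 + t3))) hdc
  have hkc := congrArg (starRingEnd ℂ) hkk
  rw [map_mul, map_sub, map_mul, map_mul, map_sub, map_mul, map_one, Complex.conj_ofReal,
    Complex.conj_ofReal, Complex.conj_ofReal, Complex.conj_ofReal, frc_conj, frc_conj,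
    Complex.conj_I, neg_neg, k_omcneg] at hkc
  have hPB := W.PB
  rw [hb] at hPB
  have EB : (w0b : ℂ) * rb + (wab : ℂ) * ((rb : ℂ) - (Ra : ℂ) * AX.e (-t4))
      = ((1 - χx : ℝ) : ℂ) * (AX.e (-UU rb rx t3) * (1 - ((-TT rb rx t3 : ℝ) : ℂ) * Complex.I))
      + ((1 - χa : ℝ) : ℂ) * (AX.e (UU rb Ra t4) * (1 - (TT rb Ra t4 : ℂ) * Complex.I))
      + ((χx + χa : ℝ) : ℂ) * (AX.e (-UU rb rx t3)
        * (1 - ((-Real.tan (hd rx rb t3 + hd rx ry t2) : ℝ) : ℂ) * Complex.I)) := by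
    push_cast at hPB zbx zba hkc ⊢
    linear_combination hPB + (1 - (χx : ℂ)) * zbx + (1 - (χa : ℂ)) * zba
      + ((χx : ℂ) + (χa : ℂ)) * hkc
  have g2 := congrArg Complex.im EB
  simp only [Complex.add_im, Complex.im_ofReal_mul, k_z_im, un_im, Complex.ofReal_im, mul_zero,
    Real.cos_neg, Real.sin_neg, zero_add] at g2
  have hwab : 0 ≤ wab * (Ra * Real.sin t4) :=
    mul_nonneg W.nab (mul_nonneg Ra0.le (Real.sin_nonneg_of_nonneg_of_le_pi t40.le t4p.le))
  have hal : UU rb rx t3 ≤ π / 2 := by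
    by_contra hcon
    push Not at hcon
    have heb := P.eb
    have xi0 : 0 < UU rb Ra t4 := by unfold UU; linarith [Tba.2.2.1, Tba.2.2.2.2.1]
    have c1 : Real.cos (UU rb rx t3) < 0 :=
      Real.cos_neg_of_pi_div_two_lt_of_lt hcon (by linarith)
    have c2 : 0 < Real.cos (UU rb Ra t4) := Real.cos_pos_of_mem_Ioo ⟨by linarith, by linarith⟩
    have c3 : Real.sin (UU rb Ra t4) ≤ Real.sin (UU rb rx t3) := by
      rw [← Real.sin_pi_sub (UU rb rx t3)]
      exact Real.sin_le_sin_of_le_of_le_pi_div_two (by linarith) (by linarith) (by linarith)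
    have hTx := two_tanpos Tbx.2.2.1 Tbx.2.2.2.1
    have hTa := two_tanpos Tba.2.2.1 Tba.2.2.2.1
    have hTc : TT rb rx t3 ≤ Real.tan (hd rx rb t3 + hd rx ry t2) := by
      unfold TT
      rw [k_hsym rb rx]
      apply le_of_lt
      exact Real.tan_lt_tan_of_lt_of_lt_pi_div_two
        (by have := Txb.2.2.1; linarith) hdc (by linarith [Txy.2.2.1])
    have s0 : 0 < Real.sin (UU rb Ra t4) :=
      Real.sin_pos_of_pos_of_lt_pi xi0 (by linarith)
    have hS : Real.sin (UU rb rx t3) < Real.sin (UU rb rx t3) - TT rb rx t3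
        * Real.cos (UU rb rx t3) := by
      have := mul_pos hTx (neg_pos.mpr c1)
      linarith
    have hS2 : Real.sin (UU rb rx t3) - TT rb rx t3 * Real.cos (UU rb rx t3)
        ≤ Real.sin (UU rb rx t3)
          - Real.tan (hd rx rb t3 + hd rx ry t2) * Real.cos (UU rb rx t3) := by
      have := mul_le_mul_of_nonneg_right hTc (neg_pos.mpr c1).le
      linarith
    have hR : Real.sin (UU rb Ra t4) - TT rb Ra t4 * Real.cos (UU rb Ra t4)
        < Real.sin (UU rb Ra t4) := by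
      have := mul_pos hTa c2
      linarith
    have ha0 := W.χa0.1
    have ha1 := W.χa0.2
    have hx0 := W.χx0.1
    have hx1 := W.χx0.2
    have m1 : (χx + χa) * (Real.sin (UU rb rx t3) - TT rb rx t3 * Real.cos (UU rb rx t3))
        ≤ (χx + χa) * (Real.sin (UU rb rx t3)
          - Real.tan (hd rx rb t3 + hd rx ry t2) * Real.cos (UU rb rx t3)) :=
      mul_le_mul_of_nonneg_left hS2 (by linarith)
    have m2 : 0 ≤ χa * (Real.sin (UU rb rx t3) - TT rb rx t3 * Real.cos (UU rb rx t3)) :=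
      mul_nonneg ha0 (by linarith)
    have m3 : (1 - χa) * (Real.sin (UU rb Ra t4) - TT rb Ra t4 * Real.cos (UU rb Ra t4))
        ≤ (1 - χa) * Real.sin (UU rb Ra t4) :=
      mul_le_mul_of_nonneg_left hR.le (by linarith)
    have m4 : (1 - χa) * Real.sin (UU rb Ra t4) ≤ 1 * Real.sin (UU rb Ra t4) :=
      mul_le_mul_of_nonneg_right (by linarith) s0.le
    linarith
  -- the contradiction
  have hBc : 0 < b2 + b3 := by linarith
  have r1 := (two_right rx0 rb0 t30 t3p P.pxb).1 hV.le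
  have r2 := (two_right rx0 rb0 t30 t3p P.pxb).2.1 hV.ge
  have r3 := (two_right rb0 rx0 t30 t3p cbx).1 hal
  have q1 := ch_sq rx rb t3
  have q2 := ch_sq rx rb (b2 + b3)
  have hle := D.cxb
  have hnn : 0 ≤ ch rx rb (b2 + b3) := Real.sqrt_nonneg _
  have hsq : ch rx rb (b2 + b3) ^ 2 ≤ ch rx rb t3 ^ 2 := pow_le_pow_left₀ hnn hle 2
  rw [k_sym rb rx] at r3
  have hcc : Real.cos t3 ≤ Real.cos (b2 + b3) := by
    by_contra hcon
    push Not at hcon
    rw [q1, q2] at hsq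
    have h4 : 0 < 2 * rx * rb := by positivity
    have := mul_lt_mul_of_pos_left hcon h4
    linarith
  have k1 : Real.cos t3 < 1 := by
    have := Real.cos_lt_cos_of_nonneg_of_le_pi (le_refl 0) t3p.le t30
    rwa [Real.cos_zero] at this
  have k2 : -1 < Real.cos t3 := by
    have := Real.cos_lt_cos_of_nonneg_of_le_pi t30.le (le_refl π) t3p
    rwa [Real.cos_pi] at this
  have hfin := two_far (rx := rx) (rb := rb) (c0 := Real.cos (b2 + b3)) (c1 := Real.cos t3)
    (B2 := ch rx rb (b2 + b3) ^ 2) (t2 := ch rx rb t3 ^ 2) rb0 q2 q1 hcc k1 k2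
    (by linarith) r3
  have := (two_right rx0 rb0 hBc (by linarith) Q.cxb2).2.2 hfin
  linarith

end E5
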