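import Pool.Agent.Helper63.E5.TWOB
import Pool.Agent.Helper93.E5.KXE

/-!
MP_efd95c_co, wheels: row TWO, third part (`ab` slack; end kink `a` with slack spoke).
-/

set_option autoImplicit false

open Real

namespace E5

/-- a kink at an end vertex with one tight and one slack rim edge -/
theorem two_kend {s xi eta Ty T1 T2 c : ℝ}
    (key : 0 < s * Real.cos xi + (Real.cos (eta - xi) + Ty * Real.sin (eta - xi)))
    (e1 : s + (Real.cos eta + Ty * Real.sin eta) = c * (Real.cos xi + T1 * Real.sin xi)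
      + c * (-Real.cos xi + T2 * Real.sin xi))
    (e2 : -(Real.sin eta - Ty * Real.cos eta) = c * -(Real.sin xi - T1 * Real.cos xi)
      + c * (Real.sin xi + T2 * Real.cos xi)) : False := by
  rw [Real.cos_sub, Real.sin_sub] at key
  have hz : s * Real.cos xi + (Real.cos eta * Real.cos xi + Real.sin eta * Real.sin xi
      + Ty * (Real.sin eta * Real.cos xi - Real.cos eta * Real.sin xi)) = 0 := by
    linear_combination (Real.cos xi) * e1 - (Real.sin xi) * e2
  linarith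

/-- `ab` slack, `xb` and `ay` tight, all spokes tight -/
theorem two_b2 {ra rx ry rb b1 b2 b3 t2 t4 w0a w0x w0y w0b way wyx wxb χa χx χy χb : ℝ}
    (D : WD ra rx ry rb ra rx ry rb b1 b2 b3 (b1 + b2) t2 (b2 + b3) t4)
    (W : WW ra rx ry rb ra rx ry rb b1 b2 b3 (b1 + b2) t2 (b2 + b3) t4
      w0a w0x w0y w0b way wyx wxb 0 χa χx χy χb) : False := by
  have Q := D.q
  have P := D.p
  have hpi := Real.pi_pos
  have ra0 := Q.ra0
  have rx0 := Q.rx0
  have ry0 := Q.ry0
  have rb0 := Q.rb0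
  have b10 := Q.b10
  have b20 := Q.b20
  have b30 := Q.b30
  have bs := Q.bs
  have t20 := P.t20
  have t2p := P.t2p
  have t40 := P.t40
  have t4p := P.t4p
  have ts := P.ts
  have cba : ch rb ra t4 < 2 := by rw [k_sym]; exact P.pab
  have cby : ch rb ry b3 < 2 := by rw [k_sym]; exact Q.cyb2
  have cbx : ch rb rx (b2 + b3) < 2 := by rw [k_sym]; exact Q.cxb2
  have cxy : ch rx ry t2 < 2 := by rw [k_sym]; exact P.pyx
  have Tba := TRI rb ra t4 rb0 ra0 t40 t4p cba
  have Tby := TRI rb ry b3 rb0 ry0 b30 (by linarith) cby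
  have Tbx := TRI rb rx (b2 + b3) rb0 rx0 (by linarith) (by linarith) cbx
  have Txb := TRI rx rb (b2 + b3) rx0 rb0 (by linarith) (by linarith) Q.cxb2
  have Txy := TRI rx ry t2 rx0 ry0 t20 t2p cxy
  have Tqxy := TRI rx ry b2 rx0 ry0 b20 (by linarith) Q.cxy2
  have Tax := TRI ra rx b1 ra0 rx0 b10 (by linarith) Q.cax2
  have Tay := TRI ra ry (b1 + b2) ra0 ry0 (by linarith) (by linarith) Q.cay2
  have zba := k_z rb0 ra0 t40 t4p cba
  have zby := k_zc rb0 ry0 b30 (by linarith) cby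
  have zbx := k_zc rb0 rx0 (by linarith) (by linarith) cbx
  have zax := k_zc ra0 rx0 b10 (by linarith) Q.cax2
  have zay := k_zc ra0 ry0 (by linarith) (by linarith) Q.cay2
  have zab := k_z ra0 rb0 t40 t4p P.pab
  have dbp : 0 < h0 rb := by unfold h0; exact Real.arcsin_pos.mpr (by linarith)
  have dbl : h0 rb < π / 2 := by
    unfold h0; exact Real.arcsin_lt_pi_div_two.mpr (by linarith [Q.rb2])
  have dap : 0 < h0 ra := by unfold h0; exact Real.arcsin_pos.mpr (by linarith)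
  have dal : h0 ra < π / 2 := by
    unfold h0; exact Real.arcsin_lt_pi_div_two.mpr (by linarith [Q.ra2])
  -- a is no kink
  have hχa : χa = 0 := by
    by_contra hca
    have hk := W.χas hca
    have hy : χy = 0 := by
      by_contra hc
      have h1 := W.χys hc
      rcases P.nay with h2 | h2 <;> linarith
    have hb : χb = 0 := by
      by_contra hc
      have h1 := W.χbs hc
      rcases P.nab with h2 | h2 <;> linarith
    have hQ := W.QA
    have hP := W.PA
    rw [hy, hb] at hP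
    have E : ((1 / Real.cos (h0 ra) : ℝ) : ℂ)
        + AX.e (-UU ra rx b1) * (1 - ((-TT ra rx b1 : ℝ) : ℂ) * Complex.I)
        = ((1 - χa : ℝ) : ℂ)
          * (AX.e (-UU ra ry (b1 + b2)) * (1 - ((-TT ra ry (b1 + b2) : ℝ) : ℂ) * Complex.I))
        + ((1 - χa : ℝ) : ℂ) * (AX.e (UU ra rb t4) * (1 - (TT ra rb t4 : ℂ) * Complex.I)) := by
      push_cast at hQ hP zax zay zab ⊢
      linear_combination hP - hQ - zax + (1 - (χa : ℂ)) * zay + (1 - (χa : ℂ)) * zab
    have e1 := congrArg Complex.re E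
    have e2 := congrArg Complex.im E
    simp only [Complex.add_re, Complex.add_im, Complex.ofReal_re, Complex.ofReal_im,
      Complex.re_ofReal_mul, Complex.im_ofReal_mul, k_z_re, k_z_im, Real.cos_neg,
      Real.sin_neg] at e1 e2
    have al : UU ra rb t4 = π - UU ra ry (b1 + b2) := by linarith
    rw [al, Real.cos_pi_sub, Real.sin_pi_sub] at e1 e2
    have xi0 : 0 < UU ra ry (b1 + b2) := by unfold UU; linarith [Tay.2.2.1, Tay.2.2.2.2.1]
    have key := k_kb dap dal xi0 Q.a3 (by linarith [Q.qa])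
      (two_tanpos Tax.2.2.1 Tax.2.2.2.1).le
    refine two_kend (s := 1 / Real.cos (h0 ra)) (xi := UU ra ry (b1 + b2))
      (eta := UU ra rx b1) (Ty := TT ra rx b1) (T1 := TT ra ry (b1 + b2)) (T2 := TT ra rb t4)
      (c := 1 - χa) ?_ ?_ ?_
    · have : (1 / Real.cos (h0 ra)) * Real.cos (UU ra ry (b1 + b2))
          = Real.cos (UU ra ry (b1 + b2)) / Real.cos (h0 ra) := by ring
      rw [this]
      exact key
    · linarith
    · linarith
  -- the equation at b
  have hQ := W.QB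
  have hP := W.PB
  have E : ((1 / Real.cos (h0 rb) : ℝ) : ℂ)
      + AX.e (-UU rb ry b3) * (1 - ((-TT rb ry b3 : ℝ) : ℂ) * Complex.I)
      = (((1 - χb) * (1 - χx) : ℝ) : ℂ)
          * (AX.e (-UU rb rx (b2 + b3)) * (1 - ((-TT rb rx (b2 + b3) : ℝ) : ℂ) * Complex.I))
        + (((1 - χb) * (1 - χa) : ℝ) : ℂ)
          * (AX.e (UU rb ra t4) * (1 - (TT rb ra t4 : ℂ) * Complex.I))
        + ((χx + χa : ℝ) : ℂ) * ((omc rb ry (t2 + (b2 + b3)) : ℂ)
          * ((rb : ℂ) - (ry : ℂ) * AX.e (t2 + (b2 + b3)))) := by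
    push_cast at hQ hP zba zby zbx ⊢
    linear_combination hP - hQ - zby + (1 - (χb : ℂ)) * (1 - (χx : ℂ)) * zbx
      + (1 - (χb : ℂ)) * (1 - (χa : ℂ)) * zba
  have xi0 : 0 < UU rb rx (b2 + b3) := by unfold UU; linarith [Tbx.2.2.1, Tbx.2.2.2.2.1]
  have Tyn := (two_tanpos Tby.2.2.1 Tby.2.2.2.1).le
  have Txn := (two_tanpos Tbx.2.2.1 Tbx.2.2.2.1).le
  -- b is no kink
  have hχb : χb = 0 := by
    by_contra hcb
    have hk := W.χbs hcb
    have hx : χx = 0 := by
      by_contra hc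
      have h1 := W.χxs hc
      rcases P.nxb with h2 | h2 <;> linarith
    rw [hx, hχa] at E
    have e1 := congrArg Complex.re E
    have e2 := congrArg Complex.im E
    simp only [Complex.add_re, Complex.add_im, Complex.ofReal_re, Complex.ofReal_im,
      Complex.re_ofReal_mul, Complex.im_ofReal_mul, k_z_re, k_z_im, Real.cos_neg,
      Real.sin_neg] at e1 e2
    have al : UU rb ra t4 = π - UU rb rx (b2 + b3) := by linarith
    rw [al, Real.cos_pi_sub, Real.sin_pi_sub] at e1 e2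
    have key := k_kb dbp dbl xi0 Q.z3 (by linarith [Q.qb]) Tyn
    refine two_kend (s := 1 / Real.cos (h0 rb)) (xi := UU rb rx (b2 + b3))
      (eta := UU rb ry b3) (Ty := TT rb ry b3) (T1 := TT rb rx (b2 + b3)) (T2 := TT rb ra t4)
      (c := 1 - χb) ?_ ?_ ?_
    · have : (1 / Real.cos (h0 rb)) * Real.cos (UU rb rx (b2 + b3))
          = Real.cos (UU rb rx (b2 + b3)) / Real.cos (h0 rb) := by ring
      rw [this]
      exact key
    · linarith
    · linarith
  -- effective force towards x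
  have hTj : ∃ Tj : ℝ, TT rb rx (b2 + b3) ≤ Tj ∧
      ((1 - χx : ℝ) : ℂ) * (AX.e (-UU rb rx (b2 + b3))
            * (1 - ((-TT rb rx (b2 + b3) : ℝ) : ℂ) * Complex.I))
        + ((χx : ℝ) : ℂ) * ((omc rb ry (t2 + (b2 + b3)) : ℂ)
          * ((rb : ℂ) - (ry : ℂ) * AX.e (t2 + (b2 + b3))))
        = AX.e (-UU rb rx (b2 + b3)) * (1 - ((-Tj : ℝ) : ℂ) * Complex.I) := by
    by_cases hc : χx = 0
    · refine ⟨TT rb rx (b2 + b3), le_refl _, ?_⟩
      rw [hc]
      push_cast
      ring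
    · have hk := W.χxs hc
      have hsum := k_qsum Q
      have hpos := D.pos
      rw [k_hsym ry rx t2] at hpos
      have hdc := two_hdc rx0 ry0 rb0 ra0 t20 t2p (by linarith) (by linarith) (by linarith)
        (by linarith) t40 t4p cxy Q.cxb2 Q.cay2 P.pab hk P.ea (by linarith) (by linarith)
      have hkk := k_kink rx0 ry0 rb0 t20 t2p (by linarith) (by linarith) Q.cxb2 cxy hk
        (rfl : AX.e (-(t2 + (b2 + b3))) = AX.e (-(t2 + (b2 + b3)))) hdc
      have hkc := congrArg (starRingEnd ℂ) hkk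
      rw [map_mul, map_sub, map_mul, map_mul, map_sub, map_mul, map_one, Complex.conj_ofReal,
        Complex.conj_ofReal, Complex.conj_ofReal, Complex.conj_ofReal, frc_conj, frc_conj,
        Complex.conj_I, neg_neg, k_omcneg] at hkc
      refine ⟨(1 - χx) * TT rb rx (b2 + b3)
        + χx * Real.tan (hd rx rb (b2 + b3) + hd rx ry t2), ?_, ?_⟩
      · have h1 : TT rb rx (b2 + b3) ≤ Real.tan (hd rx rb (b2 + b3) + hd rx ry t2) := by
          unfold TT
          rw [k_hsym rb rx]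
          apply le_of_lt
          exact Real.tan_lt_tan_of_lt_of_lt_pi_div_two
            (by have := Txb.2.2.1; linarith) hdc (by linarith [Txy.2.2.1])
        exact k_avg h1 W.χx0.1
      · rw [hkc]
        push_cast
        ring
  obtain ⟨Tj, hTj1, hTj2⟩ := hTj
  have E' : ((1 / Real.cos (h0 rb) : ℝ) : ℂ)
      + AX.e (-UU rb ry b3) * (1 - ((-TT rb ry b3 : ℝ) : ℂ) * Complex.I)
      = AX.e (UU rb ra t4) * (1 - (TT rb ra t4 : ℂ) * Complex.I)
        + AX.e (-UU rb rx (b2 + b3)) * (1 - ((-Tj : ℝ) : ℂ) * Complex.I) := by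
    rw [hχb, hχa] at E
    push_cast at E hTj2 ⊢
    linear_combination E + hTj2
  have e1 := congrArg Complex.re E'
  have e2 := congrArg Complex.im E'
  simp only [Complex.add_re, Complex.add_im, Complex.ofReal_re, Complex.ofReal_im,
    k_z_re, k_z_im, Real.cos_neg, Real.sin_neg] at e1 e2
  have r1 : un rb rx (b2 + b3) - hd rb rx (b2 + b3) ≤ un rb ry b3 - hd rb ry b3 := by
    have hrc := Q.qxyb.2.1
    rw [k_hsym ry rb, k_hsym rx rb] at hrc
    refine k_ro (rb := rb) (ra := rx) (ry := ry) (Φ := b2 + b3) (b3 := b3)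
      (d3 := hd rx ry b2) ?_ ?_ ?_ ?_ ?_ Q.uz2 Tbx.2.2.1 Tby.2.2.2.1
      Tqxy.2.2.2.1 hrc
    · rw [Tbx.2.2.2.2.2.2.1, Tbx.2.1]
    · rw [Tbx.2.2.2.2.2.2.2.1, Tbx.2.1]
    · rw [Tby.2.2.2.2.2.2.1, Tby.2.1]
    · rw [Tby.2.2.2.2.2.2.2.1, Tby.2.1]
    · rw [← Tqxy.2.1, ch_sq]
      congr 2
      congr 1
      ring
  have ta : TT rb ra t4 = Real.tan (hd rb ra t4) := rfl
  exact two_end (db := h0 rb) (d := hd rb ra t4) (u := un rb ra t4) (al := UU rb ra t4)
    (xi := UU rb rx (b2 + b3)) (eta := UU rb ry b3) (Tj := Tj) (Ty := TT rb ry b3)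
    (uj := un rb rx (b2 + b3)) (dj := hd rb rx (b2 + b3)) (uy := un rb ry b3)
    (dy := hd rb ry b3) dbp P.hba rfl Tba.2.2.2.2.1 Tba.2.2.1 Tba.2.2.2.1 rfl rfl
    Tbx.2.2.2.2.1 Tbx.2.2.1 Tbx.2.2.2.1 Tby.2.2.2.2.1 Tby.2.2.2.2.2.1 Tby.2.2.1 Tby.2.2.2.1
    hTj1 rfl Q.z3 P.eb (by linarith [Q.qb]) r1 (by rw [← ta]; linarith)
    (by rw [← ta]; linarith)

end E5
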