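import Pool.Agent.Helper63.E5.TWOC
import Pool.Agent.Helper93.E5.KXE

/-!
MP_efd95c_co, wheels: row TWO, fourth part (end kink `a` with slack spoke, `xb` slack).
-/

set_option autoImplicit false

open Real

namespace E5

/-- end kink `a` with slack spoke, `ab` tight, `xb` slack, no kink at `x` (compare `KXE`) -/
theorem two_e {ra rx ry rb Ra b1 b2 b3 t1 t2 t3 t4 w0a w0x w0y w0b way wyx wab χa χy χb : ℝ}
    (D : WD ra rx ry rb Ra rx ry rb b1 b2 b3 t1 t2 t3 t4)
    (W : WW ra rx ry rb Ra rx ry rb b1 b2 b3 t1 t2 t3 t4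
      w0a w0x w0y w0b way wyx 0 wab χa 0 χy χb)
    (S : SPE Ra ry rb t1 t4 w0a w0x w0y w0b way wab χa 0 χy χb) (hra : ra < Ra)
    (hab : ch ra rb (b1 + b2 + b3) = ch Ra rb t4) : False := by
  have hpi := Real.pi_pos
  have q := D.q
  have p := D.p
  have hbs := q.bs
  have hb1 := q.b10
  have hb2 := q.b20
  have hb3 := q.b30
  obtain rfl := S.cy
  obtain rfl := S.cb
  have hca := S.c0
  have hca1 := S.c1
  -- the forces at `b`
  have htc0 : 0 < t1 + t4 := by linarith [p.t10, p.t40]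
  have htc1 : t1 + t4 < π := S.t
  obtain ⟨kk1, kk2⟩ := kxe_kink p S.t S.k (by
    have h1 := D.pos
    have h2 := kxe_hq q
    linarith)
  obtain ⟨f1, f2⟩ := kxe_omc (r := rb) (s := rx) (θ := t3) p.Rb0 p.Rx0 p.t30 p.t3p
    (by rw [kxe_chs]; exact p.pxb)
  obtain ⟨f3, f4, f5⟩ := kxe_tau (r := rb) (s := rx) (θ := t3) p.Rb0 p.Rx0 p.t30 p.t3p
    (by rw [kxe_chs]; exact p.pxb)
  obtain ⟨g1, g2⟩ := kxe_omc (r := rb) (s := ry) (θ := t1 + t4) p.Rb0 p.Ry0 htc0 htc1 kk2
  obtain ⟨g3, g4, g5⟩ := kxe_tau (r := rb) (s := ry) (θ := t1 + t4) p.Rb0 p.Ry0 htc0 htc1 kk2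
  obtain ⟨h1, h2⟩ := kxe_omc (r := rb) (s := ra) (θ := b1 + b2 + b3) q.rb0 q.ra0
    (by linarith) hbs (by rw [kxe_chs]; exact q.cab2)
  obtain ⟨h3, h4, h5⟩ := kxe_tau (r := rb) (s := ra) (θ := b1 + b2 + b3) q.rb0 q.ra0
    (by linarith) hbs (by rw [kxe_chs]; exact q.cab2)
  obtain ⟨m1, m2⟩ := kxe_omc (r := rb) (s := ry) (θ := b3) q.rb0 q.ry0 hb3 (by linarith)
    (by rw [kxe_chs]; exact q.cyb2)
  obtain ⟨m3, m4, m5⟩ := kxe_tau (r := rb) (s := ry) (θ := b3) q.rb0 q.ry0 hb3 (by linarith)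
    (by rw [kxe_chs]; exact q.cyb2)
  have hcq : ch rb ra (b1 + b2 + b3) = ch rb Ra t4 := by
    rw [kxe_chs rb ra, kxe_chs rb Ra]; exact hab
  have homc1 : omc rb ra (b1 + b2 + b3) = omc Ra rb t4 := by
    rw [kxe_omcs Ra rb]; unfold omc; rw [hcq]
  have homc2 : omc rb Ra t4 = omc Ra rb t4 := kxe_omcs _ _ _
  have hcos3 : cos (t2 + t3) = cos (t1 + t4) := by
    have : t2 + t3 = 2 * π - (t1 + t4) := by linarith [p.ts]
    rw [this, Real.cos_two_pi_sub]
  have hsin3 : sin (t2 + t3) = - sin (t1 + t4) := by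
    have : t2 + t3 = 2 * π - (t1 + t4) := by linarith [p.ts]
    rw [this, Real.sin_two_pi_sub]
  have homc3 : omc rb ry (t2 + t3) = omc rb ry (t1 + t4) := by
    unfold omc ch; rw [hcos3]
  have hP := W.PB
  have hQ := W.QB
  rw [S.ab] at hP hQ
  have hPr := congrArg Complex.re hP
  have hPi := congrArg Complex.im hP
  have hQr := congrArg Complex.re hQ
  have hQi := congrArg Complex.im hQ
  simp only [Complex.add_re, Complex.sub_re, Complex.mul_re, Complex.add_im, Complex.sub_im,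
    Complex.mul_im, Complex.ofReal_re, Complex.ofReal_im, Complex.one_re, Complex.one_im,
    kxe_e_re, kxe_e_im, Real.cos_neg, Real.sin_neg, hcos3, hsin3, homc2, homc3]
    at hPr hPi hQr hQi
  rw [← homc1] at hQr hQi
  set al := UU rb rx t3 with hal
  set xi := UU rb ry (t1 + t4) with hxi
  set xq := UU rb ra (b1 + b2 + b3) with hxq
  set eta := UU rb ry b3 with heta
  -- the three scalar equations
  have E2 : χa * (sin xi - TT rb ry (t1 + t4) * cos xi) = sin al - TT rb rx t3 * cos al := by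
    rw [← f2, ← g2]
    linear_combination (-1 : ℝ) * hPi
  have E3 : (1 - χa) * (sin xq - TT rb ra (b1 + b2 + b3) * cos xq) =
      sin eta - TT rb ry b3 * cos eta := by
    rw [← h2, ← m2]
    linear_combination (-1 : ℝ) * hQi
  have E1 : (cos al + TT rb rx t3 * sin al) +
      χa * (cos xi + TT rb ry (t1 + t4) * sin xi) +
      (1 - χa) * (cos xq + TT rb ra (b1 + b2 + b3) * sin xq) =
      1 / cos (h0 rb) + (cos eta + TT rb ry b3 * sin eta) := by
    rw [← f1, ← g1, ← h1, ← m1]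
    linear_combination hQr - hPr
  -- angles
  obtain ⟨-, -, a2, a3, a4, a5, -⟩ := TRI rb rx t3 p.Rb0 p.Rx0 p.t30 p.t3p
    (by rw [kxe_chs]; exact p.pxb)
  obtain ⟨-, -, c2, c3, c4, c5, -⟩ := TRI rb ry (t1 + t4) p.Rb0 p.Ry0 htc0 htc1 kk2
  obtain ⟨-, -, d2, d3, d4, d5, -⟩ := TRI rb ra (b1 + b2 + b3) q.rb0 q.ra0
    (by linarith) hbs (by rw [kxe_chs]; exact q.cab2)
  obtain ⟨-, -, e2, e3, e4, e5, -⟩ := TRI rb ry b3 q.rb0 q.ry0 hb3 (by linarith)
    (by rw [kxe_chs]; exact q.cyb2)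
  have hal0 : hd rb rx t3 < al := by rw [hal]; unfold UU; linarith
  have hxi0 : 0 < xi := by rw [hxi]; unfold UU; linarith
  have hxq0 : 0 < xq := by rw [hxq]; unfold UU; linarith
  have heta0 : 0 < eta := by rw [heta]; unfold UU; linarith
  have hxqe : xq < eta := q.z2.trans q.z3
  have hxqxi : xq ≤ xi := by
    rw [kk1, hxq]
    have h7 := kxe_un_le p.Rb0 q.ra0 p.Ra0 hra (by linarith) hbs p.t40 p.t4p hcq
    have h8 : hd rb ra (b1 + b2 + b3) = hd rb Ra t4 := by unfold hd; rw [hcq]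
    unfold UU
    rw [h8]
    linarith
  have hxa : xi + al ≤ π := by
    have := p.eb
    rw [kk1]; linarith
  have hdb0 : 0 ≤ h0 rb := by
    unfold h0
    exact Real.arcsin_nonneg.mpr (by linarith [q.rb0])
  have hdbal : h0 rb < al := p.hbx
  have hdbe : h0 rb < π - eta := by linarith [q.qb]
  -- `al ≤ π / 2`
  have hal2 : al ≤ π / 2 := by
    by_contra hcon
    push Not at hcon
    have i1 : cos al ≤ 0 :=
      Real.cos_nonpos_of_pi_div_two_le_of_le hcon.le (by linarith)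
    have i2 : 0 ≤ cos xi := Real.cos_nonneg_of_mem_Icc ⟨by linarith, by linarith⟩
    have i3 : sin xi ≤ sin al := by
      rw [← Real.sin_pi_sub al]
      exact Real.sin_le_sin_of_le_of_le_pi_div_two (by linarith) (by linarith) (by linarith)
    have i4 : 0 ≤ TT rb ry (t1 + t4) * cos xi := mul_nonneg g5.le i2
    have i5 : TT rb rx t3 * cos al ≤ 0 := mul_nonpos_of_nonneg_of_nonpos f5.le i1
    have i6 : χa * (sin xi - TT rb ry (t1 + t4) * cos xi) <
        1 * (sin xi - TT rb ry (t1 + t4) * cos xi) := mul_lt_mul_of_pos_right hca1 g4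
    linarith
  -- `π / 2 < eta`
  have heta2 : π / 2 < eta := by
    by_contra hcon
    push Not at hcon
    have j1 : (1 - χa) * (sin xq - TT rb ra (b1 + b2 + b3) * cos xq) <
        1 * (sin xq - TT rb ra (b1 + b2 + b3) * cos xq) :=
      mul_lt_mul_of_pos_right (by linarith) h4
    rcases le_or_gt (hd rb ra (b1 + b2 + b3)) (hd rb ry b3) with hc | hc
    · have j2 : xq - hd rb ra (b1 + b2 + b3) < eta - hd rb ry b3 := by
        rw [hxq, heta]; unfold UU; linarith [q.uz1, q.uz2]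
      have j3 : sin (xq - hd rb ra (b1 + b2 + b3)) < sin (eta - hd rb ry b3) :=
        Real.sin_lt_sin_of_lt_of_le_pi_div_two (by rw [hxq]; unfold UU; linarith)
          (by linarith) j2
      have j4 : cos (hd rb ry b3) ≤ cos (hd rb ra (b1 + b2 + b3)) :=
        Real.cos_le_cos_of_nonneg_of_le_pi d2.le (by linarith) hc
      have j5 : 0 < cos (hd rb ry b3) := Real.cos_pos_of_mem_Ioo ⟨by linarith, e3⟩
      have j6 : 0 < cos (hd rb ra (b1 + b2 + b3)) :=
        Real.cos_pos_of_mem_Ioo ⟨by linarith, d3⟩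
      have j7 : 0 < sin (xq - hd rb ra (b1 + b2 + b3)) :=
        Real.sin_pos_of_pos_of_lt_pi (by rw [hxq]; unfold UU; linarith)
          (by rw [hxq]; unfold UU; linarith)
      have j8 : sin (xq - hd rb ra (b1 + b2 + b3)) / cos (hd rb ra (b1 + b2 + b3)) <
          sin (eta - hd rb ry b3) / cos (hd rb ry b3) := by
        rw [div_lt_div_iff₀ j6 j5]
        calc sin (xq - hd rb ra (b1 + b2 + b3)) * cos (hd rb ry b3)
            ≤ sin (xq - hd rb ra (b1 + b2 + b3)) * cos (hd rb ra (b1 + b2 + b3)) :=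
              mul_le_mul_of_nonneg_left j4 j7.le
          _ < _ := mul_lt_mul_of_pos_right j3 j6
      rw [← h3, ← m3] at j8
      linarith
    · have j2 : sin xq < sin eta :=
        Real.sin_lt_sin_of_lt_of_le_pi_div_two (by linarith) hcon hxqe
      have j3 : cos eta ≤ cos xq :=
        Real.cos_le_cos_of_nonneg_of_le_pi hxq0.le (by linarith) hxqe.le
      have j4 : 0 ≤ cos eta := Real.cos_nonneg_of_mem_Icc ⟨by linarith, hcon⟩
      have j5 : TT rb ry b3 ≤ TT rb ra (b1 + b2 + b3) := by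
        unfold TT
        exact (Real.tan_lt_tan_of_nonneg_of_lt_pi_div_two e2.le d3 hc).le
      have j6 : TT rb ry b3 * cos eta ≤ TT rb ra (b1 + b2 + b3) * cos xq :=
        mul_le_mul j5 j3 j4 h5.le
      linarith
  -- the equation in the frame of `eta`
  refine kxe_pure (db := h0 rb) (d := hd rb rx t3) (al := al) (xi := xi) (xq := xq)
    (eta := eta) (Ta := TT rb ra (b1 + b2 + b3)) (Tc := TT rb ry (t1 + t4)) (c := χa)
    hdb0 a2.le hal0 hal2 a3 hdbal.le h5.le g5.le hxq0.le hxqe hxqxi hxa hdbe (by linarith)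
    hca hca1 (by rw [E2, f3]) ?_
  have hT : tan (hd rb rx t3) = TT rb rx t3 := rfl
  rw [hT, Real.cos_add, Real.sin_add, Real.cos_sub xi, Real.sin_sub xi, Real.cos_sub eta,
    Real.sin_sub eta]
  have e9 : cos eta / cos (h0 rb) = cos eta * (1 / cos (h0 rb)) := by ring
  rw [e9]
  linear_combination (- cos eta) * E1 + (- sin eta) * (E2 + E3) -
    Real.sin_sq_add_cos_sq eta

end E5
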